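import Pool.Agent.H96.JCT.Stmts

/-!
Row WIN of the board jct: the total change along a closed walk is a multiple of `2πi`.
-/

set_option autoImplicit false

namespace Pool.JCT

open Complex Set

theorem win_z_inj {p q : Pl} (h : z p = z q) : p = q := by
  have h1 := congrArg Complex.re h
  have h2 := congrArg Complex.im h
  exact Prod.ext h1 h2

theorem win_prod (u : ℕ → ℂ) (k : ℕ) (hk : 0 < k) :
    ∏ i ∈ Finset.range k, u ((i + 1) % k) = ∏ i ∈ Finset.range k, u i := by
  obtain ⟨n, rfl⟩ : ∃ n, k = n + 1 := ⟨k - 1, by omega⟩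
  rw [Finset.prod_range_succ, Finset.prod_range_succ' (fun i => u i), Nat.mod_self]
  congr 1
  apply Finset.prod_congr rfl
  intro i hi
  rw [Finset.mem_range] at hi
  rw [Nat.mod_eq_of_lt (by omega)]

theorem win_thm (h1 : ADD_S) : WIN_S := by
  intro k f a b p hW hoff
  have hne : ∀ i < k, z (f i (a i)) - z p ≠ 0 := by
    intro i hi h
    exact hoff i hi (a i) left_mem_uIcc (win_z_inj (sub_eq_zero.1 h))
  have e1 : exp (W k f a b p) = 1 := by
    unfold W
    rw [Complex.exp_sum]
    have e2 : ∀ i ∈ Finset.range k, exp (inc (f i) (a i) (b i) p) =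
        (z (f ((i + 1) % k) (a ((i + 1) % k))) - z p) / (z (f i (a i)) - z p) := by
      intro i hi
      rw [Finset.mem_range] at hi
      rw [(h1 (f i) p (hW.cont i hi)).2.2.2 (a i) (b i) (hoff i hi), hW.join i hi]
    rw [Finset.prod_congr rfl e2, Finset.prod_div_distrib,
      win_prod (fun i => z (f i (a i)) - z p) k hW.pos, div_self]
    rw [Finset.prod_ne_zero_iff]
    intro i hi
    rw [Finset.mem_range] at hi
    exact hne i hi
  obtain ⟨n, hn⟩ := Complex.exp_eq_one_iff.1 e1
  exact ⟨n, hn⟩

end Pool.JCT
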